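import Mathlib

set_option autoImplicit false

open scoped BigOperators

namespace Pool.Agent.Q199.LL

/-- The sign of a Boolean. -/
def sg (b : Bool) : ℝ := if b then 1 else -1

lemma sg_mul_self (b : Bool) : sg b * sg b = 1 := by cases b <;> simp [sg]

lemma abs_sg (b : Bool) : |sg b| = 1 := by cases b <;> simp [sg]

lemma sg_not (b : Bool) : sg (!b) = - sg b := by cases b <;> simp [sg]

lemma sum_norm_single_le {ι Y : Type*} [Fintype ι] [DecidableEq ι] [NormedAddCommGroup Y]
    [NormedSpace ℝ Y] (H : (ι → Y) →L[ℝ] ℝ) :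
    ∑ i, ‖H.comp (ContinuousLinearMap.single ℝ (fun _ => Y) i)‖ ≤ ‖H‖ := by
  classical
  set Hi : ι → (Y →L[ℝ] ℝ) := fun i => H.comp (ContinuousLinearMap.single ℝ (fun _ => Y) i)
    with hHi
  apply le_of_forall_pos_le_add
  intro δ hδ
  have key : ∀ i, ∃ y : Y, ‖y‖ ≤ 1 ∧ ‖Hi i‖ - δ / (Fintype.card ι + 1) ≤ Hi i y := by
    intro i
    have hpos : 0 < δ / (Fintype.card ι + 1) := by positivity
    by_cases h0 : ‖Hi i‖ - δ / (Fintype.card ι + 1) ≤ 0
    · exact ⟨0, by simp, by simpa using h0⟩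
    · obtain ⟨y, hy1, hy2⟩ := (Hi i).exists_lt_apply_of_lt_opNorm
        (r := ‖Hi i‖ - δ / (Fintype.card ι + 1)) (by linarith)
      rcases le_or_gt 0 (Hi i y) with h | h
      · exact ⟨y, hy1.le, by rw [Real.norm_eq_abs, abs_of_nonneg h] at hy2; exact hy2.le⟩
      · refine ⟨-y, by simpa using hy1.le, ?_⟩
        rw [Real.norm_eq_abs, abs_of_neg h] at hy2
        simpa using hy2.le
  choose y hy1 hy2 using key
  have h1 : ∑ i, Hi i (y i) = H y := by
    have : y = ∑ i, Pi.single i (y i) := by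
      simp [Finset.univ_sum_single]
    conv_rhs => rw [this]
    rw [map_sum]
    rfl
  have h2 : H y ≤ ‖H‖ := by
    calc H y ≤ ‖H y‖ := Real.le_norm_self _
      _ ≤ ‖H‖ * ‖y‖ := H.le_opNorm _
      _ ≤ ‖H‖ * 1 := by
        apply mul_le_mul_of_nonneg_left _ (norm_nonneg _)
        exact (pi_norm_le_iff_of_nonneg zero_le_one).2 hy1
      _ = ‖H‖ := mul_one _
  have h3 : ∑ i, (‖Hi i‖ - δ / (Fintype.card ι + 1)) ≤ ‖H‖ :=
    (Finset.sum_le_sum fun i _ => hy2 i).trans (h1.le.trans h2)
  rw [Finset.sum_sub_distrib, Finset.sum_const, Finset.card_univ, nsmul_eq_mul] at h3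
  have h4 : (Fintype.card ι : ℝ) * (δ / (Fintype.card ι + 1)) ≤ δ := by
    rw [← mul_div_assoc, div_le_iff₀ (by positivity)]
    nlinarith
  linarith

/-- A vector valued form of Goldstine's theorem: if functionals `G s` on the dual satisfy
`∑ |G s φ| ≤ C ‖φ‖` and `G s (φ s) = 1`, then there are `x s` with `∑ |φ (x s)| ≤ (C + 1) ‖φ‖`
and `φ s (x s) ≥ 3 / 4`. -/
theorem goldstine {S Y : Type*} [Fintype S] [NormedAddCommGroup Y] [NormedSpace ℝ Y]
    (φ : S → (Y →L[ℝ] ℝ)) (G : S → ((Y →L[ℝ] ℝ) →ₗ[ℝ] ℝ)) (C : ℝ) (hC : 0 ≤ C)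
    (hG : ∀ ψ, ∑ s, |G s ψ| ≤ C * ‖ψ‖) (h1 : ∀ s, G s (φ s) = 1) :
    ∃ x : S → Y, (∀ ψ : Y →L[ℝ] ℝ, ∑ s, |ψ (x s)| ≤ (C + 1) * ‖ψ‖) ∧
      ∀ s, 3 / 4 ≤ φ s (x s) := by
  classical
  -- the sign embedding
  let L : (S → Y) →L[ℝ] ((S → Bool) → Y) := ContinuousLinearMap.pi fun ε =>
    ∑ s, sg (ε s) • ContinuousLinearMap.proj (R := ℝ) (φ := fun _ : S => Y) s
  have hL : ∀ x ε, L x ε = ∑ s, sg (ε s) • x s := by
    intro x ε; simp [L]
  let K : Set (S → Y) := {x | ∀ ε, ‖L x ε‖ ≤ C + 1}
  let T : (S → Y) →L[ℝ] (S → ℝ) := ContinuousLinearMap.pi fun s =>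
    (φ s).comp (ContinuousLinearMap.proj (R := ℝ) (φ := fun _ : S => Y) s)
  have hT : ∀ x s, T x s = φ s (x s) := fun x s => rfl
  have hKconv : Convex ℝ K := by
    intro x hx y hy a b ha hb hab ε
    have : L (a • x + b • y) ε = a • L x ε + b • L y ε := by
      simp [map_add, map_smul]
    rw [this]
    calc ‖a • L x ε + b • L y ε‖ ≤ ‖a • L x ε‖ + ‖b • L y ε‖ := norm_add_le _ _
      _ = a * ‖L x ε‖ + b * ‖L y ε‖ := by
        rw [norm_smul, norm_smul, Real.norm_of_nonneg ha, Real.norm_of_nonneg hb]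
      _ ≤ a * (C + 1) + b * (C + 1) := by
        gcongr
        · exact hx ε
        · exact hy ε
      _ = C + 1 := by rw [← add_mul, hab, one_mul]
  -- members of `K` satisfy the first condition
  have hKsum : ∀ x ∈ K, ∀ ψ : Y →L[ℝ] ℝ, ∑ s, |ψ (x s)| ≤ (C + 1) * ‖ψ‖ := by
    intro x hx ψ
    let ε : S → Bool := fun s => decide (0 ≤ ψ (x s))
    have h : ∑ s, |ψ (x s)| = ψ (L x ε) := by
      rw [hL, map_sum]
      refine Finset.sum_congr rfl fun s _ => ?_
      rw [map_smul, smul_eq_mul]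
      by_cases h : 0 ≤ ψ (x s)
      · simp [ε, sg, h, abs_of_nonneg h]
      · simp [ε, sg, h, abs_of_neg (not_le.1 h)]
    rw [h]
    calc ψ (L x ε) ≤ ‖ψ (L x ε)‖ := Real.le_norm_self _
      _ ≤ ‖ψ‖ * ‖L x ε‖ := ψ.le_opNorm _
      _ ≤ ‖ψ‖ * (C + 1) := by gcongr; exact hx ε
      _ = _ := mul_comm _ _
  by_contra hcon
  push Not at hcon
  have hdisj : Disjoint {r : S → ℝ | ∀ s, 3 / 4 < r s} (T '' K) := by
    rw [Set.disjoint_left]
    rintro r hr ⟨x, hx, rfl⟩
    obtain ⟨s, hs⟩ := hcon x (hKsum x hx)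
    have := hr s
    rw [hT] at this
    linarith
  have hopen : IsOpen {r : S → ℝ | ∀ s, 3 / 4 < r s} := by
    have : {r : S → ℝ | ∀ s, 3 / 4 < r s} = ⋂ s, {r : S → ℝ | 3 / 4 < r s} := by
      ext r; simp
    rw [this]
    exact isOpen_iInter_of_finite fun s => isOpen_lt continuous_const (continuous_apply s)
  have hconv : Convex ℝ {r : S → ℝ | ∀ s, 3 / 4 < r s} := by
    intro x hx y hy a b ha hb hab s
    simp only [Pi.add_apply, Pi.smul_apply, smul_eq_mul]
    have hx := hx s
    have hy := hy s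
    rcases eq_or_lt_of_le ha with h | h
    · rw [← h, zero_add] at hab; rw [← h, hab]; linarith
    · nlinarith
  obtain ⟨f, u, hfu, huf⟩ := geometric_hahn_banach_open hconv hopen
    (hKconv.linear_image (T : (S → Y) →ₗ[ℝ] (S → ℝ))) hdisj
  let lam : S → ℝ := fun s => - f (Pi.single s 1)
  have hf : ∀ r : S → ℝ, f r = - ∑ s, lam s * r s := by
    intro r
    have : r = ∑ s, r s • (Pi.single s (1 : ℝ) : S → ℝ) := by
      ext j
      simp [Finset.sum_apply, Pi.single_apply]
    conv_lhs => rw [this]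
    rw [map_sum, ← Finset.sum_neg_distrib]
    refine Finset.sum_congr rfl fun s _ => ?_
    simp only [map_smul, smul_eq_mul, lam]
    ring
  have hu0 : u ≤ 0 := by
    have := huf (T 0) ⟨0, fun ε => by simpa using by linarith, rfl⟩
    simpa using this
  set β := -u with hβ
  have hβ0 : 0 ≤ β := by linarith
  have hup : ∀ x ∈ K, ∑ s, lam s * φ s (x s) ≤ β := by
    intro x hx
    have := huf (T x) ⟨x, hx, rfl⟩
    rw [hf] at this
    simp only [hT] at this
    linarith
  have hlow : ∀ r : S → ℝ, (∀ s, 3 / 4 < r s) → β < ∑ s, lam s * r s := by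
    intro r hr
    have := hfu r hr
    rw [hf] at this
    linarith
  have hlow2 : β ≤ (3 / 4) * ∑ s, lam s := by
    have h : ∀ δ : ℝ, 0 < δ → β ≤ (3 / 4 + δ) * ∑ s, lam s := by
      intro δ hδ
      have := hlow (fun _ => 3 / 4 + δ) (fun s => by linarith)
      rw [← Finset.sum_mul] at this
      linarith [mul_comm (3 / 4 + δ) (∑ s, lam s)]
    have hcont : Filter.Tendsto (fun δ : ℝ => (3 / 4 + δ) * ∑ s, lam s) (nhdsWithin 0 (Set.Ioi 0))
        (nhds ((3 / 4 + 0) * ∑ s, lam s)) := by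
      apply Filter.Tendsto.mono_left _ nhdsWithin_le_nhds
      exact ((continuous_const.add continuous_id).mul continuous_const).tendsto 0
    have := ge_of_tendsto hcont (by
      filter_upwards [self_mem_nhdsWithin] with δ hδ using h δ hδ)
    simpa using this
  have hpos : 0 < ∑ s, lam s := by
    have := hlow (fun _ => 1) (fun s => by norm_num)
    simp only [mul_one] at this
    linarith
  -- the functional on the range of `L`
  let M : ((S → Bool) → Y) →L[ℝ] (S → Y) := ContinuousLinearMap.pi fun s =>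
    ((Fintype.card (S → Bool) : ℝ)⁻¹) • ∑ ε : S → Bool, sg (ε s) •
      ContinuousLinearMap.proj (R := ℝ) (φ := fun _ : S → Bool => Y) ε
  have horth : ∀ s t : S, s ≠ t → ∑ ε : S → Bool, sg (ε s) * sg (ε t) = 0 := by
    intro s t hst
    have h := Fintype.sum_bijective (fun ε : S → Bool => Function.update ε s (!(ε s)))
      (Function.Involutive.bijective (fun ε => by
        funext j
        by_cases hj : j = s
        · subst hj; simp
        · simp [Function.update_of_ne hj]))
      (fun ε => sg (ε s) * sg (ε t)) (fun ε => - (sg (ε s) * sg (ε t))) (by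
        intro ε
        simp only [Function.update_self]
        rw [Function.update_of_ne (Ne.symm hst), sg_not]
        ring)
    rw [Finset.sum_neg_distrib] at h
    linarith
  have hML : ∀ x, M (L x) = x := by
    intro x
    funext s
    have h1 : M (L x) s = ((Fintype.card (S → Bool) : ℝ)⁻¹) • ∑ ε : S → Bool, sg (ε s) •
        ∑ t, sg (ε t) • x t := by
      simp [M, hL]
    rw [h1]
    have h2 : ∑ ε : S → Bool, sg (ε s) • ∑ t, sg (ε t) • x t
        = (Fintype.card (S → Bool) : ℝ) • x s := by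
      simp_rw [Finset.smul_sum, smul_smul]
      rw [Finset.sum_comm]
      simp_rw [← Finset.sum_smul]
      rw [Finset.sum_eq_single s]
      · congr 1
        simp [sg_mul_self]
      · intro t _ hts
        rw [horth s t (Ne.symm hts), zero_smul]
      · intro h; exact absurd (Finset.mem_univ s) h
    rw [h2, smul_smul, inv_mul_cancel₀, one_smul]
    exact_mod_cast Fintype.card_ne_zero
  let F : (S → Y) →L[ℝ] ℝ := ∑ s, lam s •
    (φ s).comp (ContinuousLinearMap.proj (R := ℝ) (φ := fun _ : S => Y) s)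
  have hF : ∀ x, F x = ∑ s, lam s * φ s (x s) := by
    intro x; simp [F]
  have hFle : ∀ x, F x ≤ β / (C + 1) * ‖L x‖ := by
    intro x
    have hC1 : 0 < C + 1 := by linarith
    rcases eq_or_lt_of_le (norm_nonneg (L x)) with h | h
    · have hx0 : x = 0 := by
        have : L x = 0 := norm_eq_zero.1 h.symm
        have h2 := hML x
        rw [this, map_zero] at h2
        exact h2.symm
      simp [hx0]
    · have hmem : ((C + 1) / ‖L x‖) • x ∈ K := by
        intro ε
        have : L (((C + 1) / ‖L x‖) • x) ε = ((C + 1) / ‖L x‖) • L x ε := by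
          rw [map_smul]; rfl
        rw [this, norm_smul, Real.norm_of_nonneg (by positivity)]
        calc (C + 1) / ‖L x‖ * ‖L x ε‖ ≤ (C + 1) / ‖L x‖ * ‖L x‖ := by
              gcongr
              exact norm_le_pi_norm _ _
          _ = C + 1 := by field_simp
      have h3 := hup _ hmem
      have h4 : ∑ s, lam s * φ s ((((C + 1) / ‖L x‖) • x) s) = ((C + 1) / ‖L x‖) * F x := by
        rw [hF, Finset.mul_sum]
        refine Finset.sum_congr rfl fun s _ => ?_
        simp only [Pi.smul_apply, map_smul, smul_eq_mul]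
        ring
      rw [h4] at h3
      rw [div_mul_eq_mul_div, le_div_iff₀ hC1]
      rw [div_mul_eq_mul_div, div_le_iff₀ h] at h3
      linarith [mul_comm (F x) (C + 1)]
  have hFabs : ∀ x, ‖F x‖ ≤ β / (C + 1) * ‖L x‖ := by
    intro x
    rw [Real.norm_eq_abs, abs_le]
    refine ⟨?_, hFle x⟩
    have := hFle (-x)
    rw [map_neg, map_neg, norm_neg] at this
    linarith
  let p : Subspace ℝ ((S → Bool) → Y) := LinearMap.range (L : (S → Y) →ₗ[ℝ] ((S → Bool) → Y))
  let f0 : StrongDual ℝ p := (F.comp M).comp p.subtypeL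
  have hf0 : ‖f0‖ ≤ β / (C + 1) := by
    refine ContinuousLinearMap.opNorm_le_bound _ (by positivity) ?_
    rintro ⟨w, x, rfl⟩
    have : f0 ⟨(L : (S → Y) →ₗ[ℝ] ((S → Bool) → Y)) x, ⟨x, rfl⟩⟩ = F x := by
      change F (M (L x)) = F x
      rw [hML]
    rw [this]
    exact hFabs x
  obtain ⟨H, hH1, hH2⟩ := exists_extension_norm_eq p f0
  let He : (S → Bool) → (Y →L[ℝ] ℝ) := fun ε =>
    H.comp (ContinuousLinearMap.single ℝ (fun _ => Y) ε)
  have hHsum : ∑ ε, ‖He ε‖ ≤ β / (C + 1) := (sum_norm_single_le H).trans (hH2.le.trans hf0)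
  have hHL : ∀ x, H (L x) = F x := by
    intro x
    have := hH1 ⟨L x, ⟨x, rfl⟩⟩
    rw [this]
    change F (M (L x)) = F x
    rw [hML]
  have hrep : ∀ s, lam s • φ s = ∑ ε : S → Bool, sg (ε s) • He ε := by
    intro s
    ext y
    have h2 := hHL (Pi.single s y)
    have h3 : F (Pi.single s y) = lam s * φ s y := by
      rw [hF, Finset.sum_eq_single s]
      · simp
      · intro t _ hts
        simp [Pi.single_eq_of_ne hts]
      · intro h; exact absurd (Finset.mem_univ s) h
    have h4 : L (Pi.single s y) = ∑ ε : S → Bool, sg (ε s) • (Pi.single ε y : (S → Bool) → Y) := by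
      funext δ
      rw [hL, Finset.sum_apply, Finset.sum_eq_single s, Finset.sum_eq_single δ]
      · simp
      · intro ε _ hε
        simp [Pi.single_eq_of_ne (Ne.symm hε)]
      · intro h; exact absurd (Finset.mem_univ δ) h
      · intro t _ hts
        simp [Pi.single_eq_of_ne hts]
      · intro h; exact absurd (Finset.mem_univ s) h
    rw [h3, h4, map_sum] at h2
    simp only [map_smul, smul_eq_mul] at h2
    simp only [smul_apply, smul_eq_mul, sum_apply, He,
      ContinuousLinearMap.comp_apply]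
    rw [← h2]
    rfl
  have hlam : ∀ s, lam s = ∑ ε : S → Bool, sg (ε s) * G s (He ε) := by
    intro s
    have h2 := congrArg (G s) (hrep s)
    rw [map_smul, h1, map_sum] at h2
    simpa using h2
  have hfin : ∑ s, lam s ≤ C * (β / (C + 1)) := by
    calc ∑ s, lam s = ∑ s, ∑ ε : S → Bool, sg (ε s) * G s (He ε) :=
          Finset.sum_congr rfl fun s _ => hlam s
      _ = ∑ ε : S → Bool, ∑ s, sg (ε s) * G s (He ε) := Finset.sum_comm
      _ ≤ ∑ ε : S → Bool, C * ‖He ε‖ := by
        refine Finset.sum_le_sum fun ε _ => le_trans ?_ (hG (He ε))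
        refine Finset.sum_le_sum fun s _ => ?_
        calc sg (ε s) * G s (He ε) ≤ |sg (ε s) * G s (He ε)| := le_abs_self _
          _ = |G s (He ε)| := by rw [abs_mul, abs_sg, one_mul]
      _ = C * ∑ ε : S → Bool, ‖He ε‖ := by rw [Finset.mul_sum]
      _ ≤ C * (β / (C + 1)) := by gcongr
  have h5 : C * (β / (C + 1)) ≤ β := by
    rw [← mul_div_assoc, div_le_iff₀ (by linarith)]
    nlinarith
  linarith

end Pool.Agent.Q199.LL
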