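import Pool.Agent.Q199.LL.Tree

set_option autoImplicit false

open scoped BigOperators ENNReal
open MeasureTheory Filter Topology

namespace Pool.Agent.Q199.LL

lemma sum_comp_le {ι S : Type*} [Fintype ι] [Fintype S] (f : ι → S) (hf : Function.Injective f)
    (g : S → ℝ) (hg : ∀ s, 0 ≤ g s) : ∑ i, g (f i) ≤ ∑ s, g s := by
  classical
  rw [← Finset.sum_image (s := Finset.univ) (g := f) (f := g) (fun a _ b _ h => hf h)]
  exact Finset.sum_le_sum_of_subset_of_nonneg (Finset.subset_univ _) fun s _ _ => hg s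

lemma uncountable_cantor : ¬ (Set.univ : Set (ℕ → Bool)).Countable := by
  intro h
  have h1 : Countable (ℕ → Bool) := Set.countable_univ_iff.1 h
  obtain ⟨f, hf⟩ := exists_surjective_nat (ℕ → Bool)
  obtain ⟨n, hn⟩ := hf fun k => !(f k k)
  have := congrFun hn n
  simp at this

/-- Pigeonhole in a separable space. -/
lemma exists_infinite_close {X : Type*} [PseudoMetricSpace X] [TopologicalSpace.SeparableSpace X]
    [Nonempty X] (u : (ℕ → Bool) → X) {η : ℝ} (hη : 0 < η) :
    ∃ u0 : X, {t | dist (u t) u0 < η}.Infinite := by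
  by_contra hcon
  push Not at hcon
  apply uncountable_cantor
  have h : (Set.univ : Set (ℕ → Bool)) ⊆ ⋃ k : ℕ, {t | dist (u t) (TopologicalSpace.denseSeq X k) < η} := by
    intro t _
    obtain ⟨k, hk⟩ := (TopologicalSpace.denseRange_denseSeq X).exists_dist_lt (u t) hη
    exact Set.mem_iUnion.2 ⟨k, hk⟩
  refine (Set.countable_iUnion fun k => ?_).mono h
  exact (hcon _).countable

lemma eventually_restr_ne {t t' : ℕ → Bool} (h : t ≠ t') :
    ∀ᶠ n in atTop, restr t n ≠ restr t' n := by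
  obtain ⟨k, hk⟩ := Function.ne_iff.1 h
  filter_upwards [eventually_gt_atTop k] with n hn heq
  exact hk (congrFun heq ⟨k, hn⟩)

universe w

theorem main (Y : Type w) [NormedAddCommGroup Y] [NormedSpace ℝ Y]
    (Ψ : StrongDual ℝ Y ≃L[ℝ] L1Linf) : False := by
  classical
  set a : ℝ := ‖(Ψ : StrongDual ℝ Y →L[ℝ] L1Linf)‖ with ha
  set b : ℝ := ‖(Ψ.symm : L1Linf →L[ℝ] StrongDual ℝ Y)‖ with hb
  have ha0 : 0 ≤ a := ContinuousLinearMap.opNorm_nonneg _
  have hb0 : 0 ≤ b := ContinuousLinearMap.opNorm_nonneg _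
  choose y hy1 hy2 using exists_yt Ψ
  have hE : ∀ t, ‖Ψ (y t)‖ ≤ a * b := by
    intro t
    refine ((Ψ : StrongDual ℝ Y →L[ℝ] L1Linf).le_opNorm (y t)).trans ?_
    gcongr
    exact hy1 t
  choose u v huv hn using fun t => exists_split (Ψ (y t))
  set K : ℝ := (a + 1) * b with hK
  have hK0 : 0 ≤ K := by positivity
  set ρ : ℝ := a * b + 1 with hρ
  have hρ0 : 0 < ρ := by positivity
  have hvρ : ∀ t, ‖v t‖ ≤ ρ := by
    intro t
    have h1 := hn t
    have h2 := hE t
    have h3 := norm_nonneg (u t)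
    linarith
  have hη : (0 : ℝ) < 1 / (8 * (K + 1)) := by positivity
  have : Fact ((1 : ℝ≥0∞) ≠ ∞) := ⟨by simp⟩
  have : TopologicalSpace.SeparableSpace (Lp ℝ 1 mu) := by
    have : SecondCountableTopology (Lp ℝ 1 mu) := inferInstance
    infer_instance
  obtain ⟨u0, hu0⟩ := exists_infinite_close u hη
  -- the main inequality
  have key : ∀ N : ℕ, 0 < N → (N : ℝ) / 2 ≤ K * ‖u0‖ + N / 8 + K * (2 * ρ * √N) := by
    intro N hN
    let e : ℕ ↪ {t | dist (u t) u0 < 1 / (8 * (K + 1))} := hu0.natEmbedding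
    let t : Fin N → (ℕ → Bool) := fun i => (e i : ℕ → Bool)
    have htinj : Function.Injective t := by
      intro i j hij
      have h1 : e i = e j := Subtype.ext hij
      exact Fin.ext (e.injective h1)
    have htd : ∀ i, ‖u (t i) - u0‖ ≤ 1 / (8 * (K + 1)) := by
      intro i
      have := (e i).2
      rw [← dist_eq_norm]
      exact this.le
    obtain ⟨n, hn⟩ : ∃ n, ∀ i j, i ≠ j → restr (t i) n ≠ restr (t j) n := by
      have h1 : ∀ᶠ n in atTop, ∀ i j, i ≠ j → restr (t i) n ≠ restr (t j) n := by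
        rw [eventually_all]; intro i
        rw [eventually_all]; intro j
        by_cases hij : i = j
        · exact Eventually.of_forall fun n h => absurd hij h
        · filter_upwards [eventually_restr_ne (htinj.ne hij)] with n h _ using h
      exact h1.exists
    have hinj : Function.Injective fun i => restr (t i) n := by
      intro i j hij
      by_contra hne
      exact hn i j hne hij
    let φ : Fin N → (L1Linf →ₗ[ℝ] ℝ) := fun i =>
      ((ContinuousLinearMap.apply ℝ ℝ (xs Ψ n (restr (t i) n))).comp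
        (Ψ.symm : L1Linf →L[ℝ] StrongDual ℝ Y) : L1Linf →L[ℝ] ℝ)
    have hφ : ∀ i x, φ i x = (Ψ.symm x) (xs Ψ n (restr (t i) n)) := fun i x => rfl
    have hφsum : ∀ x, ∑ i, |φ i x| ≤ K * ‖x‖ := by
      intro x
      calc ∑ i, |φ i x| ≤ ∑ s, |(Ψ.symm x) (xs Ψ n s)| :=
            sum_comp_le (fun i => restr (t i) n) hinj (fun s => |(Ψ.symm x) (xs Ψ n s)|)
              fun s => abs_nonneg _
        _ ≤ (a + 1) * ‖Ψ.symm x‖ := (states_spec Ψ n).2.1 _
        _ ≤ (a + 1) * (b * ‖x‖) := by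
            gcongr
            exact (Ψ.symm : L1Linf →L[ℝ] StrongDual ℝ Y).le_opNorm x
        _ = K * ‖x‖ := by rw [hK]; ring
    have hφle : ∀ i x, φ i x ≤ K * ‖x‖ := by
      intro i x
      calc φ i x ≤ |φ i x| := le_abs_self _
        _ ≤ ∑ i, |φ i x| := Finset.single_le_sum (f := fun i => |φ i x|)
            (fun j _ => abs_nonneg _) (Finset.mem_univ i)
        _ ≤ _ := hφsum x
    have h1 : (N : ℝ) / 2 ≤ ∑ i, φ i (Ψ (y (t i))) := by
      have : ∀ i, 1 / 2 ≤ φ i (Ψ (y (t i))) := by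
        intro i
        rw [hφ, ContinuousLinearEquiv.symm_apply_apply]
        exact hy2 (t i) n
      calc (N : ℝ) / 2 = ∑ _i : Fin N, (1 / 2 : ℝ) := by
            rw [Finset.sum_const, Finset.card_univ, Fintype.card_fin, nsmul_eq_mul]; ring
        _ ≤ _ := Finset.sum_le_sum fun i _ => this i
    have h2 : ∀ i, φ i (Ψ (y (t i))) =
        φ i (ofL1 u0) + φ i (ofL1 (u (t i) - u0)) + φ i (ofLinf (v (t i))) := by
      intro i
      rw [huv (t i)]
      have : ofL1 (u (t i)) = ofL1 u0 + ofL1 (u (t i) - u0) := by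
        rw [← map_add]; congr 1; abel
      rw [map_add, this, map_add]
    have h3 : ∑ i, φ i (ofL1 u0) ≤ K * ‖u0‖ := by
      calc ∑ i, φ i (ofL1 u0) ≤ ∑ i, |φ i (ofL1 u0)| :=
            Finset.sum_le_sum fun i _ => le_abs_self _
        _ ≤ K * ‖ofL1 u0‖ := hφsum _
        _ ≤ K * ‖u0‖ := by gcongr; exact norm_ofL1_le _
    have h4 : ∑ i, φ i (ofL1 (u (t i) - u0)) ≤ (N : ℝ) / 8 := by
      have : ∀ i, φ i (ofL1 (u (t i) - u0)) ≤ 1 / 8 := by
        intro i
        calc φ i (ofL1 (u (t i) - u0)) ≤ K * ‖ofL1 (u (t i) - u0)‖ := hφle i _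
          _ ≤ K * ‖u (t i) - u0‖ := by gcongr; exact norm_ofL1_le _
          _ ≤ K * (1 / (8 * (K + 1))) := by gcongr; exact htd i
          _ ≤ 1 / 8 := by
            rw [mul_one_div, div_le_div_iff₀ (by positivity) (by norm_num)]
            linarith
      calc ∑ i, φ i (ofL1 (u (t i) - u0)) ≤ ∑ _i : Fin N, (1 / 8 : ℝ) :=
            Finset.sum_le_sum fun i _ => this i
        _ = (N : ℝ) / 8 := by
            rw [Finset.sum_const, Finset.card_univ, Fintype.card_fin, nsmul_eq_mul]; ring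
    have h5 : ∑ i, φ i (ofLinf (v (t i))) ≤ K * (2 * ρ * √N) := by
      apply sum_le_sqrt mu N hN (fun i => v (t i)) ρ hρ0 (fun i => hvρ (t i))
        (fun i => (φ i).comp (ofLinf : Lp ℝ ∞ mu →ₗ[ℝ] L1Linf)) K hK0
      intro w
      refine (hφsum (ofLinf w)).trans ?_
      gcongr
      exact norm_ofLinf_le w
    calc (N : ℝ) / 2 ≤ ∑ i, φ i (Ψ (y (t i))) := h1
      _ = ∑ i, φ i (ofL1 u0) + ∑ i, φ i (ofL1 (u (t i) - u0)) + ∑ i, φ i (ofLinf (v (t i))) := by
          rw [← Finset.sum_add_distrib, ← Finset.sum_add_distrib]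
          exact Finset.sum_congr rfl fun i _ => h2 i
      _ ≤ _ := by linarith
  obtain ⟨M, hM⟩ := exists_nat_gt ((8 / 3) * (K * ‖u0‖ + K * (2 * ρ)))
  have h0 : 0 ≤ K * ‖u0‖ := by positivity
  have h0' : 0 ≤ K * (2 * ρ) := by positivity
  have hM0 : (0 : ℝ) < M := lt_of_le_of_lt (by positivity) hM
  have hM1 : (1 : ℝ) ≤ M := by
    have : 0 < M := by exact_mod_cast hM0
    exact_mod_cast this
  have h := key (M ^ 2) (by
    have : 0 < M := by exact_mod_cast hM0
    positivity)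
  have hs : √((M ^ 2 : ℕ) : ℝ) = M := by
    push_cast
    exact Real.sqrt_sq hM0.le
  rw [hs] at h
  push_cast at h
  have h6 : K * ‖u0‖ ≤ K * ‖u0‖ * M := by nlinarith
  have h7 : (3 / 8) * (M : ℝ) ^ 2 ≤ (K * ‖u0‖ + K * (2 * ρ)) * M := by nlinarith
  have h8 : (3 / 8) * (M : ℝ) ≤ K * ‖u0‖ + K * (2 * ρ) := by
    have : (3 / 8) * (M : ℝ) * M ≤ (K * ‖u0‖ + K * (2 * ρ)) * M := by nlinarith
    exact le_of_mul_le_mul_right this hM0
  linarith

end Pool.Agent.Q199.LL
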