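import Pool.Agent.Q199.LL.Gold

set_option autoImplicit false

open scoped BigOperators ENNReal
open MeasureTheory

namespace Pool.Agent.Q199.LL

/-- The Riesz product. -/
noncomputable def rp {ι : Type*} [Fintype ι] (ε : ι → Bool) (t : ι → ℝ) : ℂ :=
  ∏ j, (1 + ((sg (ε j) * t j : ℝ) : ℂ) * Complex.I)

lemma sum_sg_rp {ι : Type*} [Fintype ι] [DecidableEq ι] (i : ι) (t : ι → ℝ) :
    ∑ ε : ι → Bool, (sg (ε i) : ℂ) * rp ε t = 2 ^ Fintype.card ι * (t i * Complex.I) := by
  classical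
  let h : ι → Bool → ℂ := fun j b =>
    (if j = i then (sg b : ℂ) else 1) * (1 + ((sg b * t j : ℝ) : ℂ) * Complex.I)
  have h1 : ∀ ε : ι → Bool, (sg (ε i) : ℂ) * rp ε t = ∏ j, h j (ε j) := by
    intro ε
    simp only [h, Finset.prod_mul_distrib, rp]
    congr 1
    rw [Finset.prod_eq_single i]
    · simp
    · intro j _ hj; simp [hj]
    · intro h; exact absurd (Finset.mem_univ i) h
  simp_rw [h1]
  have h2 : ∑ ε : ι → Bool, ∏ j, h j (ε j) = ∏ j, ∑ b, h j b := by
    rw [Finset.prod_univ_sum, Fintype.piFinset_univ]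
  rw [h2]
  have h3 : ∀ j, ∑ b, h j b = 2 * (if j = i then (t i * Complex.I) else 1) := by
    intro j
    by_cases hj : j = i
    · subst hj
      simp [h, sg]
      ring
    · simp [h, sg, hj]
      ring
  simp_rw [h3]
  rw [Finset.prod_mul_distrib, Finset.prod_const, Finset.card_univ]
  congr 1
  rw [Finset.prod_eq_single i]
  · simp
  · intro j _ hj; simp [hj]
  · intro h; exact absurd (Finset.mem_univ i) h

lemma sum_sg_rp_im {ι : Type*} [Fintype ι] [DecidableEq ι] (i : ι) (t : ι → ℝ) :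
    ∑ ε : ι → Bool, sg (ε i) * (rp ε t).im = 2 ^ Fintype.card ι * t i := by
  have h := congrArg Complex.im (sum_sg_rp i t)
  rw [Complex.im_sum] at h
  have h2 : ((2 : ℂ) ^ Fintype.card ι * (t i * Complex.I)).im = 2 ^ Fintype.card ι * t i := by
    have : ((2 : ℂ) ^ Fintype.card ι * (t i * Complex.I))
        = ((2 ^ Fintype.card ι * t i : ℝ) : ℂ) * Complex.I := by
      push_cast; ring
    rw [this, Complex.mul_im]; simp only [Complex.ofReal_re, Complex.ofReal_im, Complex.I_im,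
      Complex.I_re]; ring
  rw [h2] at h
  rw [← h]
  refine Finset.sum_congr rfl fun ε _ => ?_
  simp

lemma norm_rp_le {ι : Type*} [Fintype ι] (ε : ι → Bool) (t : ι → ℝ)
    (ht : ∀ j, t j ^ 2 ≤ 1 / Fintype.card ι) : ‖rp ε t‖ ≤ 2 := by
  have h1 : ∀ j, ‖(1 + ((sg (ε j) * t j : ℝ) : ℂ) * Complex.I)‖ ^ 2 = 1 + t j ^ 2 := by
    intro j
    rw [← Complex.normSq_eq_norm_sq, Complex.normSq_apply]
    simp
    have := sg_mul_self (ε j)
    nlinarith [this]
  have h2 : ‖rp ε t‖ ^ 2 ≤ 4 := by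
    unfold rp
    rw [norm_prod, ← Finset.prod_pow]
    simp_rw [h1]
    rcases isEmpty_or_nonempty ι with hι | hι
    · simp
    have hN : (0 : ℝ) < Fintype.card ι := by exact_mod_cast Fintype.card_pos
    calc ∏ j, (1 + t j ^ 2) ≤ ∏ _j : ι, (1 + 1 / (Fintype.card ι : ℝ)) := by
          apply Finset.prod_le_prod
          · intro j _; positivity
          · intro j _; linarith [ht j]
      _ = (1 + 1 / (Fintype.card ι : ℝ)) ^ Fintype.card ι := by
          rw [Finset.prod_const, Finset.card_univ]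
      _ ≤ (Real.exp (1 / (Fintype.card ι : ℝ))) ^ Fintype.card ι := by
          gcongr
          linarith [Real.add_one_le_exp (1 / (Fintype.card ι : ℝ))]
      _ = Real.exp 1 := by
          rw [← Real.exp_nat_mul]
          congr 1
          field_simp
      _ ≤ 4 := by linarith [Real.exp_one_lt_d9]
  have h3 : 0 ≤ ‖rp ε t‖ := norm_nonneg _
  nlinarith

lemma ae_le_norm {α : Type*} [MeasurableSpace α] {μ : Measure α} (v : Lp ℝ ∞ μ) :
    ∀ᵐ x ∂μ, ‖v x‖ ≤ ‖v‖ := by
  filter_upwards [ae_le_eLpNormEssSup (f := v) (μ := μ)] with x hx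
  rw [Lp.norm_def, eLpNorm_exponent_top, ← toReal_enorm (v x)]
  apply ENNReal.toReal_mono _ hx
  have := Lp.eLpNorm_ne_top v
  rwa [eLpNorm_exponent_top] at this

lemma norm_toLp_le {α : Type*} [MeasurableSpace α] {μ : Measure α} {f : α → ℝ}
    (h : MemLp f ∞ μ) {C : ℝ} (hC : 0 ≤ C) (hb : ∀ᵐ x ∂μ, ‖f x‖ ≤ C) : ‖h.toLp f‖ ≤ C := by
  rw [Lp.norm_toLp, eLpNorm_exponent_top]
  exact ENNReal.toReal_le_of_le_ofReal hC (eLpNormEssSup_le_of_ae_bound hb)

/-- If functionals on `L_∞` satisfy `∑ |φ i w| ≤ C ‖w‖` then `∑ φ i (v i) ≤ 2 C ρ √N` for all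
`v i` in the ball of radius `ρ`. -/
theorem sum_le_sqrt {α : Type*} [MeasurableSpace α] (μ : Measure α) (N : ℕ) (hN : 0 < N)
    (v : Fin N → Lp ℝ ∞ μ) (ρ : ℝ) (hρ : 0 < ρ) (hv : ∀ i, ‖v i‖ ≤ ρ)
    (φ : Fin N → (Lp ℝ ∞ μ →ₗ[ℝ] ℝ)) (C : ℝ) (hC : 0 ≤ C)
    (hφ : ∀ w, ∑ i, |φ i w| ≤ C * ‖w‖) : ∑ i, φ i (v i) ≤ C * (2 * ρ * √N) := by
  classical
  have hNr : (0 : ℝ) < N := by exact_mod_cast hN
  have hs : 0 < √(N : ℝ) := Real.sqrt_pos.2 hNr
  set κ : ℝ := ρ * √N with hκ
  have hκ0 : 0 < κ := by positivity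
  let W : (Fin N → Bool) → α → ℝ := fun ε x => κ * (rp ε fun j => v j x / κ).im
  have hWm : ∀ ε, AEStronglyMeasurable (W ε) μ := by
    intro ε
    have h1 : AEStronglyMeasurable (fun x => rp ε fun j => v j x / κ) μ := by
      unfold rp
      apply Finset.aestronglyMeasurable_fun_prod
      intro j _
      have h2 : AEStronglyMeasurable (fun x => sg (ε j) * (v j x / κ)) μ := by
        have h3 := (Lp.aestronglyMeasurable (v j)).const_mul (sg (ε j) * κ⁻¹)
        refine h3.congr (Filter.Eventually.of_forall fun x => ?_)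
        simp only [div_eq_mul_inv]
        ring
      exact ((Complex.continuous_ofReal.comp_aestronglyMeasurable h2).mul_const _).const_add 1
    exact (Complex.continuous_im.comp_aestronglyMeasurable h1).const_mul κ
  have hae : ∀ᵐ x ∂μ, ∀ j, ‖v j x‖ ≤ ρ := by
    rw [ae_all_iff]
    intro j
    filter_upwards [ae_le_norm (v j)] with x hx
    exact hx.trans (hv j)
  have hWb : ∀ ε, ∀ᵐ x ∂μ, ‖W ε x‖ ≤ 2 * κ := by
    intro ε
    filter_upwards [hae] with x hx
    have h1 : ‖rp ε fun j => v j x / κ‖ ≤ 2 := by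
      apply norm_rp_le
      intro j
      have h2 := hx j
      rw [Real.norm_eq_abs] at h2
      rw [div_pow, hκ, mul_pow, Real.sq_sqrt hNr.le, Fintype.card_fin,
        div_le_div_iff₀ (by positivity) hNr, one_mul]
      have : v j x ^ 2 ≤ ρ ^ 2 := by rw [← sq_abs]; gcongr
      nlinarith
    simp only [W]
    rw [norm_mul, Real.norm_of_nonneg hκ0.le, Real.norm_eq_abs]
    have := Complex.abs_im_le_norm (rp ε fun j => v j x / κ)
    nlinarith
  have hWmem : ∀ ε, MemLp (W ε) ∞ μ := fun ε => memLp_top_of_bound (hWm ε) _ (hWb ε)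
  let w : (Fin N → Bool) → Lp ℝ ∞ μ := fun ε => (hWmem ε).toLp (W ε)
  have hwn : ∀ ε, ‖w ε‖ ≤ 2 * κ := by
    exact fun ε => norm_toLp_le (hWmem ε) (by positivity) (hWb ε)
  have hrep : ∀ i, (2 ^ N : ℝ) • v i = ∑ ε, sg (ε i) • w ε := by
    intro i
    apply Lp.ext
    have h1 : ∀ᵐ x ∂μ, ∀ ε, (w ε) x = W ε x := by
      rw [ae_all_iff]; exact fun ε => (hWmem ε).coeFn_toLp
    have h2 : ⇑(∑ ε, sg (ε i) • w ε) =ᵐ[μ] fun x => ∑ ε, (sg (ε i) • w ε : Lp ℝ ∞ μ) x := by
      have := Lp.coeFn_finsetSum Finset.univ (fun ε => sg (ε i) • w ε)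
      filter_upwards [this] with x hx
      rw [hx]; simp
    have h3 : ∀ᵐ x ∂μ, ∀ ε, (sg (ε i) • w ε : Lp ℝ ∞ μ) x = sg (ε i) * w ε x := by
      rw [ae_all_iff]
      intro ε
      filter_upwards [Lp.coeFn_smul (sg (ε i)) (w ε)] with x hx
      rw [hx]; rfl
    filter_upwards [Lp.coeFn_smul (2 ^ N : ℝ) (v i), h1, h2, h3] with x e1 e2 e3 e4
    rw [e1, e3]
    simp_rw [e4, e2]
    simp only [Pi.smul_apply, smul_eq_mul, W]
    have h5 := sum_sg_rp_im i (fun j => v j x / κ)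
    rw [Fintype.card_fin] at h5
    have h6 : ∀ ε : Fin N → Bool, sg (ε i) * (κ * (rp ε fun j => v j x / κ).im)
        = κ * (sg (ε i) * (rp ε fun j => v j x / κ).im) := fun ε => by ring
    simp_rw [h6]
    rw [← Finset.mul_sum, h5]
    field_simp
  have hsum : (2 ^ N : ℝ) * ∑ i, φ i (v i) ≤ 2 ^ N * (C * (2 * ρ * √N)) := by
    calc (2 ^ N : ℝ) * ∑ i, φ i (v i) = ∑ i, φ i ((2 ^ N : ℝ) • v i) := by
          rw [Finset.mul_sum]
          exact Finset.sum_congr rfl fun i _ => by rw [map_smul, smul_eq_mul]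
      _ = ∑ i, ∑ ε, sg (ε i) * φ i (w ε) := by
          refine Finset.sum_congr rfl fun i _ => ?_
          rw [hrep, map_sum]
          exact Finset.sum_congr rfl fun ε _ => by rw [map_smul, smul_eq_mul]
      _ = ∑ ε, ∑ i, sg (ε i) * φ i (w ε) := Finset.sum_comm
      _ ≤ ∑ _ε : Fin N → Bool, C * (2 * ρ * √N) := by
          refine Finset.sum_le_sum fun ε _ => ?_
          calc ∑ i, sg (ε i) * φ i (w ε) ≤ ∑ i, |φ i (w ε)| := by
                refine Finset.sum_le_sum fun i _ => ?_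
                calc sg (ε i) * φ i (w ε) ≤ |sg (ε i) * φ i (w ε)| := le_abs_self _
                  _ = |φ i (w ε)| := by rw [abs_mul, abs_sg, one_mul]
            _ ≤ C * ‖w ε‖ := hφ (w ε)
            _ ≤ C * (2 * ρ * √N) := by
                have := hwn ε
                rw [hκ] at this
                gcongr
                linarith
      _ = 2 ^ N * (C * (2 * ρ * √N)) := by
          rw [Finset.sum_const, Finset.card_univ]
          simp
  exact le_of_mul_le_mul_left hsum (by positivity)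

end Pool.Agent.Q199.LL
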