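import Mathlib

/-!
# The space `L₁ + L_∞` on `(0, ∞)`
-/

set_option autoImplicit false

open scoped BigOperators ENNReal
open MeasureTheory

namespace Pool.Agent.Q199.LL

/-- Lebesgue measure on `(0, ∞)`. -/
noncomputable abbrev mu : Measure ℝ := volume.restrict (Set.Ioi 0)

/-- The vector space of the (classes of) measurable functions `x = u + v` with `u` in
`L₁(0, ∞)` and `v` in `L_∞(0, ∞)`. -/
def sumSubmodule : Submodule ℝ (ℝ →ₘ[mu] ℝ) where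
  carrier := {x | ∃ (u : Lp ℝ 1 mu) (v : Lp ℝ ∞ mu), x = (u : ℝ →ₘ[mu] ℝ) + (v : ℝ →ₘ[mu] ℝ)}
  add_mem' := by
    rintro _ _ ⟨u, v, rfl⟩ ⟨u', v', rfl⟩
    refine ⟨u + u', v + v', ?_⟩
    rw [AddSubgroup.coe_add, AddSubgroup.coe_add]
    abel
  zero_mem' := ⟨0, 0, by simp⟩
  smul_mem' := by
    rintro c _ ⟨u, v, rfl⟩
    refine ⟨c • u, c • v, ?_⟩
    rw [smul_add]
    rfl

/-- The space `L₁ + L_∞` on `(0, ∞)`. -/
def L1Linf : Type := sumSubmodule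

noncomputable instance : AddCommGroup L1Linf := inferInstanceAs (AddCommGroup sumSubmodule)

noncomputable instance : Module ℝ L1Linf := inferInstanceAs (Module ℝ sumSubmodule)

/-- The class of functions underlying an element of `L₁ + L_∞`. -/
def L1Linf.fn (x : L1Linf) : ℝ →ₘ[mu] ℝ := (show sumSubmodule from x).1

/-- The set of the numbers `‖u‖₁ + ‖v‖_∞`, over all decompositions `x = u + v`. -/
def L1Linf.vals (x : L1Linf) : Set ℝ :=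
  {r : ℝ | ∃ (u : Lp ℝ 1 mu) (v : Lp ℝ ∞ mu),
    x.fn = (u : ℝ →ₘ[mu] ℝ) + (v : ℝ →ₘ[mu] ℝ) ∧ r = ‖u‖ + ‖v‖}

/-- The norm of `L₁ + L_∞`: the infimum of `‖u‖₁ + ‖v‖_∞` over all decompositions `x = u + v`. -/
noncomputable instance : Norm L1Linf := ⟨fun x => sInf x.vals⟩

namespace L1Linf

lemma norm_def' (x : L1Linf) : ‖x‖ = sInf x.vals := rfl

@[simp] lemma fn_add (x y : L1Linf) : (x + y).fn = x.fn + y.fn := rfl
@[simp] lemma fn_zero : (0 : L1Linf).fn = 0 := rfl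
@[simp] lemma fn_smul (c : ℝ) (x : L1Linf) : (c • x).fn = c • x.fn := rfl

lemma fn_injective : Function.Injective L1Linf.fn := Subtype.coe_injective

lemma vals_nonempty (x : L1Linf) : x.vals.Nonempty := by
  obtain ⟨u, v, h⟩ := (show sumSubmodule from x).2
  exact ⟨_, u, v, h, rfl⟩

lemma vals_nonneg (x : L1Linf) : ∀ r ∈ x.vals, 0 ≤ r := by
  rintro r ⟨u, v, _, rfl⟩
  positivity

lemma vals_bddBelow (x : L1Linf) : BddBelow x.vals := ⟨0, fun r hr => x.vals_nonneg r hr⟩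

lemma norm_nonneg' (x : L1Linf) : 0 ≤ ‖x‖ := Real.sInf_nonneg x.vals_nonneg

lemma norm_le_of_eq {x : L1Linf} {u : Lp ℝ 1 mu} {v : Lp ℝ ∞ mu}
    (h : x.fn = (u : ℝ →ₘ[mu] ℝ) + (v : ℝ →ₘ[mu] ℝ)) : ‖x‖ ≤ ‖u‖ + ‖v‖ :=
  csInf_le x.vals_bddBelow ⟨u, v, h, rfl⟩

lemma exists_dec (x : L1Linf) {ε : ℝ} (hε : 0 < ε) : ∃ (u : Lp ℝ 1 mu) (v : Lp ℝ ∞ mu),
    x.fn = (u : ℝ →ₘ[mu] ℝ) + (v : ℝ →ₘ[mu] ℝ) ∧ ‖u‖ + ‖v‖ < ‖x‖ + ε := by
  obtain ⟨r, ⟨u, v, h, rfl⟩, hr⟩ := exists_lt_of_csInf_lt x.vals_nonempty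
    (show sInf x.vals < ‖x‖ + ε by rw [← norm_def']; linarith)
  exact ⟨u, v, h, hr⟩

/-- The mass on a set of measure at most one is at most the norm. -/
lemma lintegral_le (x : L1Linf) {A : Set ℝ} (h1 : mu A ≤ 1) :
    ∫⁻ a in A, ‖x.fn a‖ₑ ∂mu ≤ ENNReal.ofReal ‖x‖ := by
  apply ENNReal.le_of_forall_pos_le_add
  intro ε hε _
  obtain ⟨u, v, h, hlt⟩ := x.exists_dec (NNReal.coe_pos.2 hε)
  have e1 : ∀ᵐ a ∂mu, ‖x.fn a‖ₑ ≤ ‖u a‖ₑ + ‖v a‖ₑ := by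
    have h2 : x.fn =ᵐ[mu] fun a => u a + v a := by
      rw [h]; exact AEEqFun.coeFn_add _ _
    filter_upwards [h2] with a ha
    rw [ha]; exact enorm_add_le _ _
  have e2 : ∫⁻ a in A, ‖x.fn a‖ₑ ∂mu ≤ ∫⁻ a in A, ‖u a‖ₑ ∂mu + ∫⁻ a in A, ‖v a‖ₑ ∂mu := by
    rw [← lintegral_add_left']
    · exact lintegral_mono_ae (ae_restrict_of_ae e1)
    · exact (Lp.aestronglyMeasurable u).restrict.enorm
  have e3 : ∫⁻ a in A, ‖u a‖ₑ ∂mu ≤ ENNReal.ofReal ‖u‖ := by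
    calc ∫⁻ a in A, ‖u a‖ₑ ∂mu ≤ ∫⁻ a, ‖u a‖ₑ ∂mu := setLIntegral_le_lintegral _ _
      _ = ENNReal.ofReal ‖u‖ := by
        rw [Lp.norm_def, ENNReal.ofReal_toReal (Lp.eLpNorm_ne_top u), eLpNorm_one_eq_lintegral_enorm]
  have e4 : ∫⁻ a in A, ‖v a‖ₑ ∂mu ≤ ENNReal.ofReal ‖v‖ := by
    have h2 : ∀ᵐ a ∂mu, ‖v a‖ₑ ≤ ENNReal.ofReal ‖v‖ := by
      rw [Lp.norm_def, ENNReal.ofReal_toReal (Lp.eLpNorm_ne_top v), eLpNorm_exponent_top]
      exact ae_le_eLpNormEssSup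
    calc ∫⁻ a in A, ‖v a‖ₑ ∂mu ≤ ∫⁻ _a in A, ENNReal.ofReal ‖v‖ ∂mu :=
          lintegral_mono_ae (ae_restrict_of_ae h2)
      _ = ENNReal.ofReal ‖v‖ * mu A := by rw [setLIntegral_const]
      _ ≤ ENNReal.ofReal ‖v‖ * 1 := by gcongr
      _ = _ := mul_one _
  calc ∫⁻ a in A, ‖x.fn a‖ₑ ∂mu ≤ ENNReal.ofReal ‖u‖ + ENNReal.ofReal ‖v‖ :=
        e2.trans (add_le_add e3 e4)
    _ = ENNReal.ofReal (‖u‖ + ‖v‖) := by
        rw [ENNReal.ofReal_add (norm_nonneg _) (norm_nonneg _)]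
    _ ≤ ENNReal.ofReal (‖x‖ + ε) := ENNReal.ofReal_le_ofReal hlt.le
    _ = ENNReal.ofReal ‖x‖ + ε := by
        rw [ENNReal.ofReal_add x.norm_nonneg' (by positivity), ENNReal.ofReal_coe_nnreal]

lemma eq_zero_of_norm_eq_zero {x : L1Linf} (hx : ‖x‖ = 0) : x = 0 := by
  apply fn_injective
  rw [fn_zero]
  apply AEEqFun.ext
  have h1 : ∀ n : ℤ, ∀ᵐ a ∂(mu.restrict (Set.Ioc (n : ℝ) (n + 1))), x.fn a = 0 := by
    intro n
    have h2 : mu (Set.Ioc (n : ℝ) (n + 1)) ≤ 1 := by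
      calc mu (Set.Ioc (n : ℝ) (n + 1)) ≤ volume (Set.Ioc (n : ℝ) (n + 1)) :=
            Measure.restrict_apply_le _ _
        _ = 1 := by rw [Real.volume_Ioc]; simp
    have h3 := x.lintegral_le h2
    rw [hx, ENNReal.ofReal_zero, nonpos_iff_eq_zero, lintegral_eq_zero_iff'] at h3
    · filter_upwards [h3] with a ha
      simpa using ha
    · exact x.fn.aestronglyMeasurable.restrict.enorm
  have h4 : ∀ᵐ a ∂mu, x.fn a = 0 := by
    have h5 : (⋃ n : ℤ, Set.Ioc (n : ℝ) (n + 1)) = Set.univ := iUnion_Ioc_intCast ℝ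
    have h6 := (ae_restrict_iUnion_iff (μ := mu) (fun n : ℤ => Set.Ioc (n : ℝ) (n + 1))
      (fun a => x.fn a = 0)).2 h1
    rwa [h5, Measure.restrict_univ] at h6
  filter_upwards [h4, AEEqFun.coeFn_zero (α := ℝ) (β := ℝ) (μ := mu)] with a ha h0
  rw [ha, h0]; rfl

lemma norm_add_le' (x y : L1Linf) : ‖x + y‖ ≤ ‖x‖ + ‖y‖ := by
  apply le_of_forall_pos_le_add
  intro ε hε
  obtain ⟨u, v, h, h1⟩ := x.exists_dec (half_pos hε)
  obtain ⟨u', v', h', h2⟩ := y.exists_dec (half_pos hε)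
  have h3 : (x + y).fn = ((u + u' : Lp ℝ 1 mu) : ℝ →ₘ[mu] ℝ) + ((v + v' : Lp ℝ ∞ mu) : ℝ →ₘ[mu] ℝ) := by
    rw [fn_add, h, h', AddSubgroup.coe_add, AddSubgroup.coe_add]; abel
  have h4 := norm_le_of_eq h3
  have h5 := norm_add_le u u'
  have h6 := norm_add_le v v'
  linarith

lemma norm_smul_le' (c : ℝ) (x : L1Linf) : ‖c • x‖ ≤ |c| * ‖x‖ := by
  apply le_of_forall_pos_le_add
  intro ε hε
  obtain ⟨u, v, h, h1⟩ := x.exists_dec (show 0 < ε / (|c| + 1) by positivity)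
  have h3 : (c • x).fn = ((c • u : Lp ℝ 1 mu) : ℝ →ₘ[mu] ℝ) + ((c • v : Lp ℝ ∞ mu) : ℝ →ₘ[mu] ℝ) := by
    rw [fn_smul, h, smul_add]; rfl
  have h4 := norm_le_of_eq h3
  rw [norm_smul c u, norm_smul c v, Real.norm_eq_abs, ← mul_add] at h4
  have h5 : |c| * (‖u‖ + ‖v‖) ≤ |c| * (‖x‖ + ε / (|c| + 1)) := by gcongr
  have h6 : |c| * (ε / (|c| + 1)) ≤ ε := by
    rw [← mul_div_assoc, div_le_iff₀ (by positivity)]
    nlinarith [abs_nonneg c]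
  nlinarith

lemma norm_smul' (c : ℝ) (x : L1Linf) : ‖c • x‖ = |c| * ‖x‖ := by
  apply le_antisymm (norm_smul_le' c x)
  rcases eq_or_ne c 0 with rfl | hc
  · simp [norm_nonneg']
  · have h := norm_smul_le' c⁻¹ (c • x)
    rw [smul_smul, inv_mul_cancel₀ hc, one_smul, abs_inv] at h
    have h1 : 0 < |c| := abs_pos.2 hc
    rw [inv_mul_eq_div, le_div_iff₀ h1] at h
    linarith [mul_comm (‖x‖) |c|]

lemma core : NormedSpace.Core ℝ L1Linf where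
  norm_nonneg := norm_nonneg'
  norm_smul c x := by rw [norm_smul', Real.norm_eq_abs]
  norm_triangle := norm_add_le'
  norm_eq_zero_iff x := by
    refine ⟨eq_zero_of_norm_eq_zero, ?_⟩
    rintro rfl
    apply le_antisymm _ (norm_nonneg' _)
    have := norm_le_of_eq (x := 0) (u := 0) (v := 0) (by simp)
    simpa using this

end L1Linf

noncomputable instance : NormedAddCommGroup L1Linf := NormedAddCommGroup.ofCore L1Linf.core

noncomputable instance : NormedSpace ℝ L1Linf := NormedSpace.ofCore L1Linf.core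

end Pool.Agent.Q199.LL
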