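import Pool.Agent.Q199.LL.Space

set_option autoImplicit false

open scoped BigOperators ENNReal
open MeasureTheory

namespace Pool.Agent.Q199.LL

/-- The inclusion of `L₁`. -/
noncomputable def ofL1 : Lp ℝ 1 mu →L[ℝ] L1Linf :=
  LinearMap.mkContinuous
    { toFun := fun u => (show L1Linf from (⟨(u : ℝ →ₘ[mu] ℝ), u, 0, by simp⟩ : sumSubmodule))
      map_add' := fun _ _ => rfl
      map_smul' := fun _ _ => rfl } 1 (fun u => by
        rw [one_mul]
        have h := L1Linf.norm_le_of_eq (x := (show L1Linf from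
          (⟨(u : ℝ →ₘ[mu] ℝ), u, 0, by simp⟩ : sumSubmodule))) (u := u) (v := 0) (by
            change (u : ℝ →ₘ[mu] ℝ) = _; simp)
        rw [norm_zero, add_zero] at h
        exact h)

/-- The inclusion of `L_∞`. -/
noncomputable def ofLinf : Lp ℝ ∞ mu →L[ℝ] L1Linf :=
  LinearMap.mkContinuous
    { toFun := fun u => (show L1Linf from (⟨(u : ℝ →ₘ[mu] ℝ), 0, u, by simp⟩ : sumSubmodule))
      map_add' := fun _ _ => rfl
      map_smul' := fun _ _ => rfl } 1 (fun u => by
        rw [one_mul]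
        have h := L1Linf.norm_le_of_eq (x := (show L1Linf from
          (⟨(u : ℝ →ₘ[mu] ℝ), 0, u, by simp⟩ : sumSubmodule))) (u := 0) (v := u) (by
            change (u : ℝ →ₘ[mu] ℝ) = _; simp)
        rw [norm_zero, zero_add] at h
        exact h)

lemma ofL1_fn (u : Lp ℝ 1 mu) : (ofL1 u).fn = (u : ℝ →ₘ[mu] ℝ) := rfl
lemma ofLinf_fn (u : Lp ℝ ∞ mu) : (ofLinf u).fn = (u : ℝ →ₘ[mu] ℝ) := rfl

lemma norm_ofL1_le (u : Lp ℝ 1 mu) : ‖ofL1 u‖ ≤ ‖u‖ := by
  have h := L1Linf.norm_le_of_eq (x := ofL1 u) (u := u) (v := 0) (by rw [ofL1_fn]; simp)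
  rwa [norm_zero, add_zero] at h

lemma norm_ofLinf_le (u : Lp ℝ ∞ mu) : ‖ofLinf u‖ ≤ ‖u‖ := by
  have h := L1Linf.norm_le_of_eq (x := ofLinf u) (u := 0) (v := u) (by rw [ofLinf_fn]; simp)
  rwa [norm_zero, zero_add] at h

lemma exists_split (x : L1Linf) : ∃ (u : Lp ℝ 1 mu) (v : Lp ℝ ∞ mu),
    x = ofL1 u + ofLinf v ∧ ‖u‖ + ‖v‖ ≤ ‖x‖ + 1 := by
  obtain ⟨u, v, h, h1⟩ := x.exists_dec one_pos
  refine ⟨u, v, L1Linf.fn_injective ?_, h1.le⟩
  rw [L1Linf.fn_add, ofL1_fn, ofLinf_fn, h]

/-- The unit interval. -/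
def II : Set ℝ := Set.Ioc 0 1

lemma measurableSet_II : MeasurableSet II := measurableSet_Ioc

/-- Lebesgue measure on the unit interval. -/
noncomputable def nu : Measure ℝ := mu.restrict II

lemma mu_II : mu II = 1 := by
  unfold mu II
  rw [Measure.restrict_apply measurableSet_Ioc]
  have : Set.Ioc (0 : ℝ) 1 ∩ Set.Ioi 0 = Set.Ioc 0 1 := by
    ext x; simp only [Set.mem_inter_iff, Set.mem_Ioc, Set.mem_Ioi]; tauto
  rw [this, Real.volume_Ioc]; simp

instance : IsFiniteMeasure nu := ⟨by unfold nu; rw [Measure.restrict_apply_univ, mu_II]; simp⟩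

instance : NullSingletonClass nu := by unfold nu; infer_instance

lemma nu_univ : nu Set.univ = 1 := by unfold nu; rw [Measure.restrict_apply_univ, mu_II]

lemma mu_inter_ne_top (B : Set ℝ) : mu (B ∩ II) ≠ ∞ := by
  have : mu (B ∩ II) ≤ 1 := by rw [← mu_II]; exact measure_mono Set.inter_subset_right
  exact (this.trans_lt (by simp)).ne

lemma mu_inter_le_one (B : Set ℝ) : mu (B ∩ II) ≤ 1 := by
  rw [← mu_II]; exact measure_mono Set.inter_subset_right

open Classical in
/-- The characteristic function of `B ∩ (0, 1]`. -/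
noncomputable def chi (B : Set ℝ) : L1Linf :=
  if h : MeasurableSet B then
    ofL1 (indicatorConstLp 1 (h.inter measurableSet_II) (mu_inter_ne_top B) (1 : ℝ)) else 0

lemma chi_fn {B : Set ℝ} (hB : MeasurableSet B) :
    (chi B).fn =ᵐ[mu] (B ∩ II).indicator fun _ => (1 : ℝ) := by
  unfold chi
  rw [dif_pos hB, ofL1_fn]
  exact indicatorConstLp_coeFn

lemma norm_chi_le {B : Set ℝ} (hB : MeasurableSet B) : ‖chi B‖ ≤ nu.real B := by
  unfold chi
  rw [dif_pos hB]
  refine (norm_ofL1_le _).trans ?_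
  refine (norm_indicatorConstLp_le (p := 1)).trans ?_
  simp only [norm_one, one_mul, ENNReal.toReal_one, div_one, Real.rpow_one]
  unfold nu
  rw [Measure.real, Measure.real, Measure.restrict_apply hB]

lemma chi_empty : chi ∅ = 0 := by
  have := norm_chi_le MeasurableSet.empty
  rw [measureReal_empty] at this
  exact norm_le_zero_iff.1 this

lemma chi_union {A B : Set ℝ} (hA : MeasurableSet A) (hB : MeasurableSet B) (h : Disjoint A B) :
    chi (A ∪ B) = chi A + chi B := by
  apply L1Linf.fn_injective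
  apply AEEqFun.ext
  rw [L1Linf.fn_add]
  filter_upwards [chi_fn (hA.union hB), chi_fn hA, chi_fn hB, AEEqFun.coeFn_add (chi A).fn (chi B).fn]
    with a h1 h2 h3 h4
  rw [h1, h4, Pi.add_apply, h2, h3, Set.union_inter_distrib_right,
    Set.indicator_union_of_disjoint (h.mono Set.inter_subset_left Set.inter_subset_left)]

lemma chi_finset_union {ι : Type*} (s : Finset ι) (f : ι → Set ℝ) (hf : ∀ i, MeasurableSet (f i))
    (hd : Pairwise (Function.onFun Disjoint f)) : chi (⋃ i ∈ s, f i) = ∑ i ∈ s, chi (f i) := by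
  classical
  induction s using Finset.induction_on with
  | empty => simp [chi_empty]
  | insert a s ha ih =>
    rw [Finset.set_biUnion_insert, chi_union (hf a) (Finset.measurableSet_biUnion _ fun i _ => hf i),
      ih, Finset.sum_insert ha]
    rw [Set.disjoint_iUnion₂_right]
    intro i hi
    exact hd (fun h => ha (h ▸ hi))

lemma hasSum_chi (f : ℕ → Set ℝ) (hf : ∀ i, MeasurableSet (f i))
    (hd : Pairwise (Function.onFun Disjoint f)) : HasSum (fun i => chi (f i)) (chi (⋃ i, f i)) := by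
  have h1 : HasSum (fun i => nu.real (f i)) (nu.real (⋃ i, f i)) := by
    have h := nu.toSignedMeasure.m_iUnion hf hd
    have e : (fun i => nu.toSignedMeasure (f i)) = fun i => nu.real (f i) :=
      funext fun i => Measure.toSignedMeasure_apply_measurable (hf i)
    rw [e, Measure.toSignedMeasure_apply_measurable (MeasurableSet.iUnion hf)] at h
    exact h
  rw [HasSum, tendsto_iff_norm_sub_tendsto_zero] at h1 ⊢
  refine squeeze_zero (fun _ => norm_nonneg _) (fun s => ?_) h1
  set V := ⋃ i ∈ s, f i with hV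
  have hVm : MeasurableSet V := Finset.measurableSet_biUnion _ fun i _ => hf i
  have hUm : MeasurableSet (⋃ i, f i) := MeasurableSet.iUnion hf
  have hVU : V ⊆ ⋃ i, f i := Set.iUnion₂_subset fun i _ => Set.subset_iUnion f i
  have e1 : chi (⋃ i, f i) = chi V + chi ((⋃ i, f i) \ V) := by
    rw [← chi_union hVm (hUm.diff hVm) Set.disjoint_sdiff_right, Set.union_sdiff_cancel hVU]
  have e2 : nu.real V = ∑ i ∈ s, nu.real (f i) :=
    measureReal_biUnion_finset (fun i _ j _ hij => hd hij) (fun i _ => hf i)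
  rw [← chi_finset_union s f hf hd, e1, ← hV, sub_add_cancel_left, norm_neg, ← e2]
  refine (norm_chi_le (hUm.diff hVm)).trans ?_
  rw [measureReal_sdiff hVU hVm, Real.norm_eq_abs, abs_sub_comm]
  exact le_abs_self _

lemma integrableOn (x : L1Linf) (A : Set ℝ) : IntegrableOn x.fn (A ∩ II) mu :=
  ⟨x.fn.aestronglyMeasurable.restrict,
    (x.lintegral_le (mu_inter_le_one A)).trans_lt ENNReal.ofReal_lt_top⟩

/-- Integration over `A ∩ (0, 1]`. -/
noncomputable def intOn (A : Set ℝ) : L1Linf →ₗ[ℝ] ℝ where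
  toFun x := ∫ a in A ∩ II, x.fn a ∂mu
  map_add' x y := by
    rw [← integral_add (integrableOn x A) (integrableOn y A)]
    apply integral_congr_ae
    apply ae_restrict_of_ae
    rw [L1Linf.fn_add]
    exact AEEqFun.coeFn_add _ _
  map_smul' c x := by
    rw [RingHom.id_apply, smul_eq_mul, ← integral_const_mul]
    apply integral_congr_ae
    apply ae_restrict_of_ae
    rw [L1Linf.fn_smul]
    exact AEEqFun.coeFn_smul _ _

lemma intOn_chi {A B : Set ℝ} (hA : MeasurableSet A) (hB : MeasurableSet B) :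
    intOn A (chi B) = nu.real (A ∩ B) := by
  change ∫ a in A ∩ II, (chi B).fn a ∂mu = _
  rw [integral_congr_ae (ae_restrict_of_ae (chi_fn hB)),
    integral_indicator (hB.inter measurableSet_II), Measure.restrict_restrict (hB.inter measurableSet_II),
    setIntegral_const, smul_eq_mul, mul_one]
  unfold nu
  rw [Measure.real, Measure.real, Measure.restrict_apply (hA.inter hB)]
  congr 2
  ext a; simp only [Set.mem_inter_iff]; tauto

lemma sum_abs_intOn_le {S : Type*} [Fintype S] (A : S → Set ℝ) (hA : ∀ s, MeasurableSet (A s))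
    (hd : Pairwise (Function.onFun Disjoint A)) (x : L1Linf) : ∑ s, |intOn (A s) x| ≤ ‖x‖ := by
  have h1 : ∀ s, |intOn (A s) x| ≤ (∫⁻ a in A s ∩ II, ‖x.fn a‖ₑ ∂mu).toReal := by
    intro s
    have := norm_integral_le_lintegral_norm (μ := mu.restrict (A s ∩ II)) (fun a => x.fn a)
    simp only [ofReal_norm] at this
    exact this
  have hfin : ∀ s, ∫⁻ a in A s ∩ II, ‖x.fn a‖ₑ ∂mu ≠ ∞ := fun s =>
    ((x.lintegral_le (mu_inter_le_one (A s))).trans_lt ENNReal.ofReal_lt_top).ne
  calc ∑ s, |intOn (A s) x| ≤ ∑ s, (∫⁻ a in A s ∩ II, ‖x.fn a‖ₑ ∂mu).toReal :=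
        Finset.sum_le_sum fun s _ => h1 s
    _ = (∑ s, ∫⁻ a in A s ∩ II, ‖x.fn a‖ₑ ∂mu).toReal := by
        rw [ENNReal.toReal_sum fun s _ => hfin s]
    _ = (∫⁻ a in ⋃ s, (A s ∩ II), ‖x.fn a‖ₑ ∂mu).toReal := by
        rw [lintegral_iUnion (fun s => (hA s).inter measurableSet_II)
          (fun s t hst => (hd hst).mono Set.inter_subset_left Set.inter_subset_left), tsum_fintype]
    _ ≤ (ENNReal.ofReal ‖x‖).toReal := by
        apply ENNReal.toReal_mono ENNReal.ofReal_ne_top
        apply x.lintegral_le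
        rw [← mu_II]
        exact measure_mono (Set.iUnion_subset fun s => Set.inter_subset_right)
    _ = ‖x‖ := ENNReal.toReal_ofReal (norm_nonneg _)

/-- A functional that is larger than `c` on the average over `A` is at least `c` on all the
subsets of some part of `A` of positive measure. -/
lemma exists_good_subset (ψ : L1Linf →L[ℝ] ℝ) (c : ℝ) {A : Set ℝ} (hA : MeasurableSet A)
    (h : c * nu.real A < ψ (chi A)) :
    ∃ A' ⊆ A, MeasurableSet A' ∧ 0 < nu A' ∧
      ∀ B ⊆ A', MeasurableSet B → c * nu.real B ≤ ψ (chi B) := by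
  classical
  let vm : SignedMeasure ℝ :=
    { measureOf' := fun B => if MeasurableSet B then ψ (chi B) else 0
      empty' := by simp [chi_empty]
      not_measurable' := fun B hB => by simp [hB]
      m_iUnion' := fun f hf hd => by
        simp only [hf, MeasurableSet.iUnion hf, if_true]
        exact ψ.hasSum (hasSum_chi f hf hd) }
  have hvm : ∀ B, MeasurableSet B → vm B = ψ (chi B) := fun B hB => if_pos hB
  let s : SignedMeasure ℝ := c • nu.toSignedMeasure - vm
  have hs : ∀ B, MeasurableSet B → s B = c * nu.real B - ψ (chi B) := by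
    intro B hB
    simp only [s]
    rw [_root_.sub_apply, _root_.smul_apply, Measure.toSignedMeasure_apply_measurable hB, hvm B hB,
      smul_eq_mul]
  obtain ⟨A', hA'm, hA'A, hle, hlt⟩ := SignedMeasure.exists_subset_restrict_nonpos (s := s) (i := A)
    (by rw [hs A hA]; linarith)
  have hall : ∀ B ⊆ A', MeasurableSet B → c * nu.real B ≤ ψ (chi B) := by
    intro B hB hBm
    have h1 := VectorMeasure.subset_le_of_restrict_le_restrict s 0 hA'm hle hB
    rw [hs B hBm] at h1
    simpa using h1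
  refine ⟨A', hA'A, hA'm, ?_, hall⟩
  rw [pos_iff_ne_zero]
  intro h0
  have h1 : chi A' = 0 := by
    have h2 := norm_chi_le hA'm
    rw [Measure.real, h0, ENNReal.toReal_zero] at h2
    exact norm_le_zero_iff.1 h2
  rw [hs A' hA'm, h1, map_zero, Measure.real, h0, ENNReal.toReal_zero] at hlt
  simp at hlt

end Pool.Agent.Q199.LL
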