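import Pool.Agent.Q199.LL.Tools
import Pool.Agent.Q199.LL.Riesz

set_option autoImplicit false

open scoped BigOperators ENNReal
open MeasureTheory Filter Topology

namespace Pool.Agent.Q199.LL

lemma nu_Iic_zero : nu (Set.Iic 0) = 0 := by
  unfold nu II
  rw [Measure.restrict_apply measurableSet_Iic]
  have : Set.Iic (0 : ℝ) ∩ Set.Ioc 0 1 = ∅ := by
    ext x; simp only [Set.mem_inter_iff, Set.mem_Iic, Set.mem_Ioc, Set.mem_empty_iff_false]
    constructor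
    · rintro ⟨h1, h2, _⟩; linarith
    · exact False.elim
  rw [this]; simp

lemma nu_Ioi_one : nu (Set.Ioi 1) = 0 := by
  unfold nu II
  rw [Measure.restrict_apply measurableSet_Ioi]
  have : Set.Ioi (1 : ℝ) ∩ Set.Ioc 0 1 = ∅ := by
    ext x; simp only [Set.mem_inter_iff, Set.mem_Ioi, Set.mem_Ioc, Set.mem_empty_iff_false]
    constructor
    · rintro ⟨h1, _, h2⟩; linarith
    · exact False.elim
  rw [this]; simp

/-- A set of positive measure splits into two parts of positive measure. -/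
lemma exists_split_set {A : Set ℝ} (hA : MeasurableSet A) (h : 0 < nu A) :
    ∃ A' : Bool → Set ℝ, (∀ b, MeasurableSet (A' b)) ∧ (∀ b, 0 < nu (A' b)) ∧
      (∀ b, A' b ⊆ A) ∧ Disjoint (A' true) (A' false) := by
  suffices hx : ∃ x : ℝ, 0 < nu (A ∩ Set.Iic x) ∧ 0 < nu (A ∩ Set.Ioi x) by
    obtain ⟨x, h1, h2⟩ := hx
    refine ⟨fun b => if b then A ∩ Set.Iic x else A ∩ Set.Ioi x, ?_, ?_, ?_, ?_⟩
    · intro b; cases b
      · simpa using hA.inter measurableSet_Ioi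
      · simpa using hA.inter measurableSet_Iic
    · intro b; cases b
      · simpa using h2
      · simpa using h1
    · intro b; cases b <;> simp
    · simp only [if_true, Bool.false_eq_true, if_false]
      rw [Set.disjoint_left]
      rintro y ⟨_, hy1⟩ ⟨_, hy2⟩
      simp only [Set.mem_Iic, Set.mem_Ioi] at hy1 hy2
      linarith
  by_contra hcon
  push Not at hcon
  simp only [nonpos_iff_eq_zero] at hcon
  let T : Set ℝ := {x | nu (A ∩ Set.Iic x) = 0}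
  have hT0 : (0 : ℝ) ∈ T := measure_mono_null Set.inter_subset_right nu_Iic_zero
  have hTb : ∀ x ∈ T, x ≤ 1 := by
    intro x hx
    by_contra h1
    push Not at h1
    have h2 : nu (A ∩ Set.Ioi x) = 0 :=
      measure_mono_null (Set.inter_subset_right.trans (Set.Ioi_subset_Ioi h1.le)) nu_Ioi_one
    have h3 : A ⊆ (A ∩ Set.Iic x) ∪ (A ∩ Set.Ioi x) := by
      rw [← Set.inter_union_distrib_left, Set.Iic_union_Ioi, Set.inter_univ]
    have h4 := measure_mono_null h3 (measure_union_null hx h2)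
    exact h.ne' h4
  have hbdd : BddAbove T := ⟨1, hTb⟩
  set x0 := sSup T with hx0
  have hlt : ∀ x < x0, nu (A ∩ Set.Iic x) = 0 := by
    intro x hx
    obtain ⟨t, ht, hxt⟩ := exists_lt_of_lt_csSup ⟨0, hT0⟩ hx
    exact measure_mono_null (Set.inter_subset_inter_right _ (Set.Iic_subset_Iic.2 hxt.le)) ht
  have hgt : ∀ x, x0 < x → nu (A ∩ Set.Ioi x) = 0 := by
    intro x hx
    apply hcon x
    rw [pos_iff_ne_zero]
    intro h0
    exact absurd (le_csSup hbdd (show x ∈ T from h0)) (not_le.2 hx)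
  have h1 : nu (⋃ n : ℕ, A ∩ Set.Iic (x0 - 1 / ((n : ℝ) + 1))) = 0 :=
    measure_iUnion_null fun n => hlt _ (by
      have : 0 < 1 / ((n : ℝ) + 1) := by positivity
      linarith)
  have h2 : nu (⋃ n : ℕ, A ∩ Set.Ioi (x0 + 1 / ((n : ℝ) + 1))) = 0 :=
    measure_iUnion_null fun n => hgt _ (by
      have : 0 < 1 / ((n : ℝ) + 1) := by positivity
      linarith)
  have h3 : A ⊆ ((⋃ n : ℕ, A ∩ Set.Iic (x0 - 1 / ((n : ℝ) + 1))) ∪
      (⋃ n : ℕ, A ∩ Set.Ioi (x0 + 1 / ((n : ℝ) + 1)))) ∪ {x0} := by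
    intro y hy
    rcases lt_trichotomy y x0 with hlt' | heq | hgt'
    · left; left
      obtain ⟨n, hn⟩ := exists_nat_one_div_lt (sub_pos.2 hlt')
      exact Set.mem_iUnion.2 ⟨n, hy, by simp only [Set.mem_Iic]; linarith⟩
    · right; exact heq
    · left; right
      obtain ⟨n, hn⟩ := exists_nat_one_div_lt (sub_pos.2 hgt')
      exact Set.mem_iUnion.2 ⟨n, hy, by simp only [Set.mem_Ioi]; linarith⟩
  have h4 := measure_mono_null h3 (measure_union_null (measure_union_null h1 h2) (measure_singleton x0))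
  exact h.ne' h4

lemma nu_real_pos {A : Set ℝ} (h : 0 < nu A) : 0 < nu.real A :=
  ENNReal.toReal_pos h.ne' (measure_ne_top _ _)

section

universe w
variable {Y : Type w} [NormedAddCommGroup Y] [NormedSpace ℝ Y]
  (Ψ : StrongDual ℝ Y ≃L[ℝ] L1Linf)

/-- One step of the construction. -/
lemma exists_step {S : Type*} [Fintype S] (A : S → Set ℝ) (hA : ∀ s, MeasurableSet (A s))
    (hpos : ∀ s, 0 < nu (A s)) (hd : Pairwise (Function.onFun Disjoint A)) :
    ∃ (x : S → Y) (A' : S → Bool → Set ℝ),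
      (∀ s b, MeasurableSet (A' s b)) ∧ (∀ s b, 0 < nu (A' s b)) ∧ (∀ s b, A' s b ⊆ A s) ∧
      (∀ s, Disjoint (A' s true) (A' s false)) ∧
      (∀ ψ : StrongDual ℝ Y, ∑ s, |ψ (x s)| ≤ (‖(Ψ : StrongDual ℝ Y →L[ℝ] L1Linf)‖ + 1) * ‖ψ‖) ∧
      ∀ s b, ∀ B ⊆ A' s b, MeasurableSet B → 1 / 2 * nu.real B ≤ (Ψ.symm (chi B)) (x s) := by
  obtain ⟨x, hx1, hx2⟩ := goldstine (fun s => (nu.real (A s))⁻¹ • Ψ.symm (chi (A s)))
    (fun s => (intOn (A s)).comp (Ψ : StrongDual ℝ Y →ₗ[ℝ] L1Linf))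
    ‖(Ψ : StrongDual ℝ Y →L[ℝ] L1Linf)‖ (ContinuousLinearMap.opNorm_nonneg _)
    (fun ψ => (sum_abs_intOn_le A hA hd (Ψ ψ)).trans
      ((Ψ : StrongDual ℝ Y →L[ℝ] L1Linf).le_opNorm ψ))
    (fun s => by
      simp only [LinearMap.comp_apply]
      have h1 : (Ψ : StrongDual ℝ Y →ₗ[ℝ] L1Linf) ((nu.real (A s))⁻¹ • Ψ.symm (chi (A s)))
          = (nu.real (A s))⁻¹ • chi (A s) := by
        change Ψ ((nu.real (A s))⁻¹ • Ψ.symm (chi (A s))) = _
        rw [map_smul, ContinuousLinearEquiv.apply_symm_apply]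
      rw [h1, map_smul, intOn_chi (hA s) (hA s), Set.inter_self, smul_eq_mul,
        inv_mul_cancel₀ (nu_real_pos (hpos s)).ne'])
  have key : ∀ s, ∃ A' : Bool → Set ℝ, (∀ b, MeasurableSet (A' b)) ∧ (∀ b, 0 < nu (A' b)) ∧
      (∀ b, A' b ⊆ A s) ∧ Disjoint (A' true) (A' false) ∧
      ∀ b, ∀ B ⊆ A' b, MeasurableSet B → 1 / 2 * nu.real B ≤ (Ψ.symm (chi B)) (x s) := by
    intro s
    let ψ : L1Linf →L[ℝ] ℝ :=
      (ContinuousLinearMap.apply ℝ ℝ (x s)).comp (Ψ.symm : L1Linf →L[ℝ] StrongDual ℝ Y)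
    have hψ : ∀ e, ψ e = (Ψ.symm e) (x s) := fun e => rfl
    have h1 : 1 / 2 * nu.real (A s) < ψ (chi (A s)) := by
      have h2 := hx2 s
      have h3 : ((nu.real (A s))⁻¹ • Ψ.symm (chi (A s))) (x s)
          = (nu.real (A s))⁻¹ * ψ (chi (A s)) := rfl
      rw [h3, inv_mul_eq_div, le_div_iff₀ (nu_real_pos (hpos s))] at h2
      have := nu_real_pos (hpos s)
      linarith
    obtain ⟨A1, hA1, hm1, hp1, hall⟩ := exists_good_subset ψ (1 / 2) (hA s) h1
    obtain ⟨A', hm, hp, hs, hdj⟩ := exists_split_set hm1 hp1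
    exact ⟨A', hm, hp, fun b => (hs b).trans hA1, hdj, fun b B hB hBm => hall B (hB.trans (hs b)) hBm⟩
  choose A' h1 h2 h3 h4 h5 using key
  exact ⟨x, A', h1, h2, h3, h4, hx1, h5⟩

/-- The disjoint families at level `n`. -/
def State (n : ℕ) : Type :=
  {A : (Fin n → Bool) → Set ℝ // (∀ s, MeasurableSet (A s)) ∧ (∀ s, 0 < nu (A s)) ∧
    Pairwise (Function.onFun Disjoint A)}

lemma exists_next {n : ℕ} (σ : State n) : ∃ (x : (Fin n → Bool) → Y) (τ : State (n + 1)),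
    (∀ s, τ.1 s ⊆ σ.1 (Fin.init s)) ∧
    (∀ ψ : StrongDual ℝ Y, ∑ s, |ψ (x s)| ≤ (‖(Ψ : StrongDual ℝ Y →L[ℝ] L1Linf)‖ + 1) * ‖ψ‖) ∧
    ∀ s, ∀ B ⊆ τ.1 s, MeasurableSet B →
      1 / 2 * nu.real B ≤ (Ψ.symm (chi B)) (x (Fin.init s)) := by
  obtain ⟨A, hm, hp, hd⟩ := σ
  obtain ⟨x, A', h1, h2, h3, h4, h5, h6⟩ := exists_step Ψ A hm hp hd
  refine ⟨x, ⟨fun s => A' (Fin.init s) (s (Fin.last n)), fun s => h1 _ _, fun s => h2 _ _, ?_⟩,
    fun s => h3 _ _, h5, fun s B hB hBm => h6 _ _ B hB hBm⟩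
  intro s t hst
  change Disjoint (A' (Fin.init s) (s (Fin.last n))) (A' (Fin.init t) (t (Fin.last n)))
  by_cases h : (Fin.init s : Fin n → Bool) = Fin.init t
  · have hl : s (Fin.last n) ≠ t (Fin.last n) := by
      intro hl
      apply hst
      rw [← Fin.snoc_init_self s, ← Fin.snoc_init_self t, h, hl]
    rw [h]
    rcases hb : s (Fin.last n) with _ | _ <;> rcases hb' : t (Fin.last n) with _ | _
    · rw [hb, hb'] at hl; exact absurd rfl hl
    · exact (h4 _).symm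
    · exact h4 _
    · rw [hb, hb'] at hl; exact absurd rfl hl
  · exact (hd h).mono (h3 _ _) (h3 _ _)

/-- The initial state. -/
noncomputable def state0 : State 0 :=
  ⟨fun _ => Set.univ, fun _ => MeasurableSet.univ, fun _ => by rw [nu_univ]; exact one_pos,
    fun s t hst => absurd (Subsingleton.elim s t) hst⟩

/-- The sequence of states. -/
noncomputable def states : (n : ℕ) → State n
  | 0 => state0
  | n + 1 => (exists_next Ψ (states n)).choose_spec.choose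

/-- The vectors in the predual. -/
noncomputable def xs (n : ℕ) : (Fin n → Bool) → Y := (exists_next Ψ (states Ψ n)).choose

lemma states_spec (n : ℕ) :
    (∀ s, (states Ψ (n + 1)).1 s ⊆ (states Ψ n).1 (Fin.init s)) ∧
    (∀ ψ : StrongDual ℝ Y, ∑ s, |ψ (xs Ψ n s)| ≤
      (‖(Ψ : StrongDual ℝ Y →L[ℝ] L1Linf)‖ + 1) * ‖ψ‖) ∧
    ∀ s, ∀ B ⊆ (states Ψ (n + 1)).1 s, MeasurableSet B →
      1 / 2 * nu.real B ≤ (Ψ.symm (chi B)) (xs Ψ n (Fin.init s)) :=
  (exists_next Ψ (states Ψ n)).choose_spec.choose_spec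

/-- Restriction of an infinite sequence. -/
def restr (t : ℕ → Bool) (n : ℕ) : Fin n → Bool := fun i => t i

lemma init_restr (t : ℕ → Bool) (n : ℕ) : Fin.init (restr t (n + 1)) = restr t n := rfl

/-- The sets along the branch `t`. -/
noncomputable def BB (t : ℕ → Bool) (n : ℕ) : Set ℝ := (states Ψ n).1 (restr t n)

lemma BB_anti (t : ℕ → Bool) : Antitone (BB Ψ t) :=
  antitone_nat_of_succ_le fun n => (states_spec Ψ n).1 (restr t (n + 1))

/-- A weak* cluster point of a bounded sequence of functionals. -/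
lemma exists_cluster (g : ℕ → StrongDual ℝ Y) (R : ℝ) (hg : ∀ n, ‖g n‖ ≤ R) (z : ℕ → Y) (c : ℝ)
    (h : ∀ m, ∀ᶠ n in atTop, c ≤ g n (z m)) :
    ∃ y : StrongDual ℝ Y, ‖y‖ ≤ R ∧ ∀ m, c ≤ y (z m) := by
  have hK := WeakDual.isCompact_closedBall (𝕜 := ℝ) (E := Y) 0 R
  let 𝒰 : Ultrafilter ℕ := hyperfilter ℕ
  have hU : (𝒰 : Filter ℕ) ≤ atTop := by
    rw [← Nat.cofinite_eq_atTop]; exact hyperfilter_le_cofinite
  have hmem : (𝒰.map fun n => StrongDual.toWeakDual (g n) : Filter (WeakDual ℝ Y)) ≤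
      𝓟 (WeakDual.toStrongDual ⁻¹' Metric.closedBall 0 R) := by
    rw [le_principal_iff]
    refine Filter.mem_map.2 (Filter.univ_mem' fun n => ?_)
    simpa using hg n
  obtain ⟨y, hy, hle⟩ := hK.ultrafilter_le_nhds _ hmem
  refine ⟨WeakDual.toStrongDual y, by simpa using hy, fun m => ?_⟩
  have ht : Tendsto (fun n => StrongDual.toWeakDual (g n)) 𝒰 (𝓝 y) := hle
  have ht2 : Tendsto (fun n => g n (z m)) 𝒰 (𝓝 (y (z m))) :=
    (WeakDual.eval_continuous (z m)).continuousAt.tendsto.comp ht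
  exact ge_of_tendsto ht2 (hU (h m))

lemma exists_yt (t : ℕ → Bool) : ∃ y : StrongDual ℝ Y,
    ‖y‖ ≤ ‖(Ψ.symm : L1Linf →L[ℝ] StrongDual ℝ Y)‖ ∧
    ∀ m, 1 / 2 ≤ y (xs Ψ m (restr t m)) := by
  have hm : ∀ n, MeasurableSet (BB Ψ t n) := fun n => (states Ψ n).2.1 _
  have hp : ∀ n, 0 < nu.real (BB Ψ t n) := fun n => nu_real_pos ((states Ψ n).2.2.1 _)
  refine exists_cluster (fun n => Ψ.symm ((nu.real (BB Ψ t n))⁻¹ • chi (BB Ψ t n))) _ ?_ _ _ ?_
  · intro n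
    refine ((Ψ.symm : L1Linf →L[ℝ] StrongDual ℝ Y).le_opNorm _).trans ?_
    have h1 : ‖(nu.real (BB Ψ t n))⁻¹ • chi (BB Ψ t n)‖ ≤ 1 := by
      rw [norm_smul, norm_inv, Real.norm_of_nonneg (hp n).le, inv_mul_le_iff₀ (hp n), mul_one]
      exact norm_chi_le (hm n)
    calc _ ≤ ‖(Ψ.symm : L1Linf →L[ℝ] StrongDual ℝ Y)‖ * 1 := by gcongr
      _ = _ := mul_one _
  · intro m
    filter_upwards [eventually_ge_atTop (m + 1)] with n hn
    have h1 := (states_spec Ψ m).2.2 (restr t (m + 1)) (BB Ψ t n) (BB_anti Ψ t hn) (hm n)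
    rw [init_restr] at h1
    rw [map_smul]
    change 1 / 2 ≤ (nu.real (BB Ψ t n))⁻¹ * (Ψ.symm (chi (BB Ψ t n))) (xs Ψ m (restr t m))
    rw [inv_mul_eq_div, le_div_iff₀ (hp n)]
    exact h1

end

end Pool.Agent.Q199.LL
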